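import Pool.Agent.Lib.MP_b41181_pr.XO.Point

/-!
The sharp upper estimate in the scaling limit and for the model.
-/

open MeasureTheory ProbabilityTheory Filter Topology Finset
open scoped ENNReal NNReal

namespace Pool.Agent.Lib.MP_b41181_pr.XO

/-- The constant of the upper bound. -/
noncomputable def upK : ℝ := (4 / cX) ^ (1 / 3 : ℝ)

lemma upK_pos : 0 < upK := Real.rpow_pos_of_pos (div_pos (by norm_num) cX_pos) _

lemma cube {y : ℝ} (hy : 0 ≤ y) : (y ^ (1 / 3 : ℝ)) ^ 3 = y := by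
  rw [← Real.rpow_natCast, ← Real.rpow_mul hy]
  norm_num

lemma upK_cube : cX * upK ^ 3 = 4 := by
  have := cX_pos
  rw [upK, cube (by positivity)]
  field_simp

lemma log_le_rpow {t : ℝ} (ht : 0 ≤ t) : Real.log t ≤ 10 * t ^ (1 / 10 : ℝ) := by
  have := Real.log_le_rpow_div ht (show (0 : ℝ) < 1 / 10 by norm_num)
  linarith

theorem sharp_limit {lam ε : ℝ} (hlam : 0 < lam) (hε : 0 < ε) :
    ∀ᶠ t : ℝ≥0 in atTop, ∀ᶠ n : ℕ in atTop,
      (Gibbs (Vb false n (lam * √(t / n : ℝ≥0)))).real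
        {p | ∃ k ≤ n, upK * ((t : ℝ) * Real.log t / lam) ^ (1 / 3 : ℝ) / √(t / n : ℝ≥0) <
          |S k p|} ≤ ε := by
  have hK := upK_pos
  have hm : 0 < min ε (1 / 8) / 2 := by positivity
  filter_upwards [DU_false lam (2 / 5) _ hlam (by norm_num) hm, eventually_ge_atTop 4,
    ev_rpow (show (0 : ℝ) < 1 by norm_num) (lam / upK ^ 3),
    ev_rpow (show (1 + 1 / 10 : ℝ) < 2 / 5 * 3 by norm_num) (upK ^ 3 * 10 / lam),
    ev_rpow (show (1 / 10 + 2 / 5 * 2 : ℝ) < 1 by norm_num) (10 ^ 10 * 160),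
    ev_rpow (show (0 : ℝ) < 1 by norm_num) (204832 / (min ε (1 / 8) / 2))]
    with t h1 h2 h3 h4 h5 h6
  have ht4 : (4 : ℝ) ≤ t := h2
  have ht0 : (0 : ℝ) < t := by linarith
  have hlog : 5 / 4 ≤ Real.log t := by
    have e1 := Real.log_le_log (by norm_num) ht4
    rw [show (4 : ℝ) = 2 ^ 2 by norm_num, Real.log_pow] at e1
    have := Real.log_two_gt_d9
    push_cast at e1
    linarith
  have hlt : Real.log t ≤ t := (Real.log_le_sub_one_of_pos ht0).trans (by linarith)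
  have hl10 := log_le_rpow ht0.le
  obtain ⟨r, hr⟩ : ∃ r, r = upK * ((t : ℝ) * Real.log t / lam) ^ (1 / 3 : ℝ) := ⟨_, rfl⟩
  rw [← hr]
  have hr0 : 0 < r := by
    rw [hr]
    exact mul_pos hK (Real.rpow_pos_of_pos (div_pos (mul_pos ht0 (by linarith)) hlam) _)
  have hr3 : r ^ 3 = upK ^ 3 * ((t : ℝ) * Real.log t / lam) := by
    rw [hr, mul_pow, cube (div_nonneg (mul_nonneg ht0.le (by linarith)) hlam.le)]
  rw [Real.rpow_zero, Real.rpow_one, mul_one] at h3 h6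
  have hr1 : 1 ≤ r := by
    refine le_of_pow_le_pow_left₀ (n := 3) (by norm_num) hr0.le ?_
    rw [hr3, one_pow, ← mul_div_assoc, le_div_iff₀ hlam]
    rw [div_le_iff₀ (by positivity)] at h3
    nlinarith [mul_pos ht0 (pow_pos hK 3)]
  obtain ⟨v, hv⟩ : ∃ v, v = (t : ℝ) ^ (2 / 5 : ℝ) := ⟨_, rfl⟩
  have hv0 : 0 < v := by rw [hv]; positivity
  have hvt : v ≤ t := by
    rw [hv]
    exact Real.rpow_le_self_of_one_le (by linarith) (by norm_num)
  have hrv : r ≤ v := by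
    refine le_of_pow_le_pow_left₀ (n := 3) (by norm_num) hv0.le ?_
    rw [Real.rpow_add ht0, Real.rpow_one, Real.rpow_mul ht0.le, ← hv,
      show (3 : ℝ) = (3 : ℕ) by norm_num, Real.rpow_natCast] at h4
    refine le_trans ?_ h4
    rw [hr3]
    calc _ ≤ upK ^ 3 * ((t : ℝ) * (10 * (t : ℝ) ^ (1 / 10 : ℝ)) / lam) := by gcongr
      _ = _ := by ring
  obtain ⟨j, j1, j2⟩ := exists_nat_pow_near (x := v / r) (y := 2)
    (by rw [le_div_iff₀ hr0]; linarith) one_lt_two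
  rw [le_div_iff₀ hr0] at j1
  rw [div_lt_iff₀ hr0] at j2
  have hj : ((j + 1 : ℕ) : ℝ) ≤ 2 * t := by
    have e1 : ((j + 1 : ℕ) : ℝ) ≤ 2 ^ (j + 1) := by
      exact_mod_cast (Nat.lt_two_pow_self (n := j + 1)).le
    have e2 : (2 : ℝ) ^ j * 1 ≤ 2 ^ j * r := by gcongr
    rw [pow_succ] at e1
    linarith
  have hroom : 10 ^ 10 * (4 * Real.log t) * (2 ^ (j + 1) * r) ^ 2 ≤ t := by
    rw [Real.rpow_add ht0, Real.rpow_one, Real.rpow_mul ht0.le, ← hv, Real.rpow_two] at h5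
    refine le_trans ?_ h5
    have e1 : 2 ^ (j + 1) * r ≤ 2 * v := by rw [pow_succ]; linarith
    calc _ ≤ 10 ^ 10 * (4 * (10 * (t : ℝ) ^ (1 / 10 : ℝ))) * (2 * v) ^ 2 := by gcongr
      _ = _ := by ring
  have herr : ((j + 1 : ℕ) : ℝ) * ((1600 * (4 * Real.log t) * t / r ^ 2 + 1) *
      (16 * Real.exp (-(4 * Real.log t)))) ≤ min ε (1 / 8) / 2 := by
    have e1 : Real.exp (-(4 * Real.log t)) = ((t : ℝ) ^ 4)⁻¹ := by
      rw [Real.exp_neg, show (4 : ℝ) = (4 : ℕ) by norm_num, Real.exp_nat_mul, Real.exp_log ht0]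
    have e2 : 1600 * (4 * Real.log t) * t / r ^ 2 + 1 ≤ 6401 * (t : ℝ) ^ 2 := by
      have e3 : 1600 * (4 * Real.log t) * t / r ^ 2 ≤ 1600 * (4 * Real.log t) * t :=
        div_le_self (by positivity) (one_le_pow₀ hr1)
      nlinarith
    rw [div_le_iff₀ hm] at h6
    rw [e1]
    calc _ ≤ 2 * t * (6401 * (t : ℝ) ^ 2 * (16 * ((t : ℝ) ^ 4)⁻¹)) := by gcongr
      _ = 204832 / t := by field_simp; norm_num
      _ ≤ _ := by rw [div_le_iff₀ ht0]; linarith
  filter_upwards [h1, tendsto_natCast_atTop_atTop (R := ℝ).eventually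
    (eventually_ge_atTop (10 ^ 12 * (4 * Real.log t) * t)), eventually_gt_atTop 0] with n k1 k2 hn
  have hn' : (0 : ℝ) < n := by exact_mod_cast hn
  obtain ⟨δ, hδ⟩ : ∃ δ : ℝ, δ = (t / n : ℝ≥0) := ⟨_, rfl⟩
  rw [← hδ, Vb_false] at k1 ⊢
  rw [← hv] at k1
  have e1 : δ * n = t := by
    rw [hδ]
    push_cast
    field_simp
  have hδ0 : 0 < δ := by
    rw [hδ]
    positivity
  have hσ : 0 < √δ := Real.sqrt_pos.2 hδ0
  have hσ2 : √δ ^ 2 = δ := Real.sq_sqrt hδ0.le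
  have e2 : 1600 * (4 * Real.log t) * n / (r / √δ) ^ 2 = 1600 * (4 * Real.log t) * t / r ^ 2 := by
    rw [div_pow, hσ2, ← e1]
    field_simp
  have := (isHam_Vd n (β := lam * √δ) (by positivity)).isProb
  have key := sharp_upper (n := n) (β := lam * √δ) (ρ := r / √δ) (L := 4 * Real.log t)
    (by positivity) (by linarith) (by positivity) ?_ ?_ (j + 1) (min ε (1 / 8) / 2) ?_ ?_ ?_
  · rw [e2] at key
    linarith [min_le_left ε (1 / 8)]
  · rw [div_pow, hσ2, le_div_iff₀ hδ0]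
    refine le_trans ?_ (one_le_pow₀ hr1)
    refine le_of_mul_le_mul_right ?_ hn'
    rw [mul_assoc, e1]
    linarith
  · have e3 : cX * (lam * √δ) * (r / √δ) ^ 3 = cX * lam * r ^ 3 / √δ ^ 2 := by field_simp
    rw [e3, hσ2, hr3, le_div_iff₀ hδ0, mul_assoc, mul_comm (n : ℝ), e1]
    refine le_of_eq ?_
    calc _ = cX * upK ^ 3 * (t * Real.log t) := by rw [upK_cube]; ring
      _ = _ := by field_simp
  · rw [← mul_div_assoc, div_pow, hσ2, ← mul_div_assoc, div_le_iff₀ hδ0, mul_comm (n : ℝ), e1]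
    exact hroom
  · rw [e2]
    linarith [min_le_right ε (1 / 8)]
  · refine le_trans (measureReal_mono ?_) k1
    rintro p ⟨k, hk, hp⟩
    refine ⟨k, hk, lt_of_le_of_lt ?_ hp⟩
    rw [← mul_div_assoc]
    gcongr

variable {Ω : Type*} [MeasurableSpace Ω] {P : Measure Ω} {lam : ℝ} {X : ℝ≥0 → Ω → ℝ}
  {x : ℕ → Ω → ℝ} {Y : ℕ → ℝ≥0 → Ω → ℝ}

theorem upper_sharp (h : IsTrapModel lam X x Y P) (hlam : 0 < lam) {a : ℝ} (ha : 0 ≤ a) :
    Tendsto (fun t : ℝ≥0 => ProbabilityTheory.cond P {ω | (t : ℝ≥0∞) < Tb false a X x Y ω}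
      {ω | maxDisp X t ω ≤ 2 * upK * ((t : ℝ) * Real.log t / lam) ^ (1 / 3 : ℝ)})
      atTop (𝓝 1) := by
  have := h.prob
  rw [tendsto_order]
  refine ⟨fun c hc => ?_, fun c hc => Eventually.of_forall fun t =>
    (cond_le_one (h.Tb_pos hlam.le false ha t)).trans_lt hc⟩
  obtain ⟨η, hη, hη'⟩ : ∃ η : ℝ, 0 < η ∧ c < 1 - ENNReal.ofReal η := by
    obtain ⟨d, hd1, hd2⟩ := ENNReal.lt_iff_exists_nnreal_btwn.1 hc
    have hd : (d : ℝ) < 1 := by exact_mod_cast hd2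
    refine ⟨1 - d, by linarith, hd1.trans_le (le_of_eq ?_)⟩
    rw [ENNReal.ofReal_sub 1 (NNReal.coe_nonneg d), ENNReal.ofReal_one, ENNReal.ofReal_coe_nnreal,
      ENNReal.sub_sub_cancel ENNReal.one_ne_top hd2.le]
  obtain ⟨t0, ht0⟩ := eventually_atTop.1
    (sharp_limit (ε := η / Real.exp (2 * lam)) hlam (by positivity))
  filter_upwards [eventually_ge_atTop t0, eventually_ge_atTop 2] with t h3 h4
  refine hη'.trans_le (cond_ge (h.Tb_pos hlam.le false ha t) (inter_Tb_le hη.le fun m => ?_))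
  have h6 : tm t m ≠ 0 := (zero_le.trans_lt (lt_tm t m)).ne'
  have h7 := h.surv_inter_le hlam.le (b := false) ha h6
    (E := {ω | maxDisp X t ω ≤ 2 * upK * ((t : ℝ) * Real.log t / lam) ^ (1 / 3 : ℝ)}ᶜ)
    (A := fun n => {p | ∃ k ≤ n, upK * ((tm t m : ℝ) * Real.log (tm t m) / lam) ^ (1 / 3 : ℝ) /
      √(tm t m / n : ℝ≥0) < |S k p|})
    (fun n => measurableSet_big _ _) (fun ω hω hE => ?_) (ht0 _ (h3.trans (lt_tm t m).le))
  · rwa [div_mul_cancel₀ _ (Real.exp_pos _).ne'] at h7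
  have ht2 : (2 : ℝ) ≤ t := h4
  have h8 : upK * ((tm t m : ℝ) * Real.log (tm t m) / lam) ^ (1 / 3 : ℝ) < maxDisp X t ω := by
    have h9 : (tm t m : ℝ) ≤ t + 1 := by exact_mod_cast tm_le t m
    have h10 : (t : ℝ) < tm t m := lt_tm t m
    have hl : 0 ≤ Real.log t := Real.log_nonneg (by linarith)
    have hl' : 0 ≤ Real.log (tm t m) := Real.log_nonneg (by linarith)
    have h11 : Real.log (tm t m) ≤ 2 * Real.log t := by
      have := Real.log_le_log (x := tm t m) (y := (t : ℝ) ^ 2) (by linarith) (by nlinarith)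
      rw [Real.log_pow] at this
      exact_mod_cast this
    have h12 : ((tm t m : ℝ) * Real.log (tm t m) / lam) ^ (1 / 3 : ℝ) ≤
        2 * ((t : ℝ) * Real.log t / lam) ^ (1 / 3 : ℝ) := by
      refine le_of_pow_le_pow_left₀ (n := 3) (by norm_num) (by positivity) ?_
      rw [mul_pow, cube (by positivity), cube (by positivity), ← mul_div_assoc]
      refine div_le_div_of_nonneg_right ?_ hlam.le
      calc _ ≤ 2 * t * (2 * Real.log t) := mul_le_mul (by linarith) h11 hl' (by positivity)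
        _ ≤ _ := by nlinarith [mul_nonneg (show (0 : ℝ) ≤ t by positivity) hl]
    have h13 : 2 * upK * ((t : ℝ) * Real.log t / lam) ^ (1 / 3 : ℝ) < maxDisp X t ω := not_le.1 hE
    have h14 := mul_le_mul_of_nonneg_left h12 upK_pos.le
    linarith
  obtain ⟨s, hs, hs'⟩ := exists_of_le_maxDisp h8
  have h9 := ((hω.1.1.tendsto s).comp (tendsto_grid h6 s)).abs.eventually (lt_mem_nhds hs')
  filter_upwards [h9, eventually_ne_atTop 0] with n hn hn0
  have hδ : tm t m / n ≠ 0 := div_ne_zero h6 (by exact_mod_cast hn0)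
  refine ⟨_, floor_grid_le h6 (hs.trans (lt_tm t m).le) n, ?_⟩
  have h10 := S_incr hδ (fun s => X s ω) ⌊(s : ℝ) / tm t m * n⌋₊
  have h11 : 0 < √(tm t m / n : ℝ≥0) := Real.sqrt_pos.2 (by positivity)
  rw [div_lt_iff₀ h11, mul_comm |_|, ← abs_of_pos h11, ← abs_mul, h10, hω.1.2, sub_zero]
  exact hn

theorem exact_order (h : IsTrapModel lam X x Y P) (hlam : 0 < lam) {a : ℝ} (ha : 0 ≤ a) :
    Tendsto (fun t : ℝ≥0 => ProbabilityTheory.cond P {ω | (t : ℝ≥0∞) < hitTime a X x Y ω}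
      {ω | escC 1 * ((t : ℝ) * Real.log t / lam) ^ (1 / 3 : ℝ) ≤ maxDisp X t ω ∧
        maxDisp X t ω ≤ 2 * upK * ((t : ℝ) * Real.log t / lam) ^ (1 / 3 : ℝ)})
      atTop (𝓝 1) := by
  have := h.prob
  have h1 := ENNReal.Tendsto.sub (upper_sharp h hlam ha) (h.escape hlam ha)
    (Or.inl ENNReal.one_ne_top)
  rw [tsub_zero, Tb_false] at h1
  have h0 : ∀ t : ℝ≥0, P {ω | (t : ℝ≥0∞) < hitTime a X x Y ω} ≠ 0 := fun t =>
    Tb_false a X x Y ▸ h.Tb_pos hlam.le false ha t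
  refine tendsto_of_tendsto_of_tendsto_of_le_of_le' h1 tendsto_const_nhds ?_
    (Eventually.of_forall fun t => cond_le_one (h0 t))
  filter_upwards [eventually_ge_atTop 1] with t ht
  have ht1 : (1 : ℝ) ≤ t := ht
  have hl : 0 ≤ Real.log t := Real.log_nonneg ht1
  have e : escC 1 * ((t : ℝ) * Real.log t / lam) ^ (1 / 3 : ℝ) =
      escC lam * ((t : ℝ) * Real.log t) ^ (1 / 3 : ℝ) := by
    unfold escC
    rw [← Real.mul_rpow (by positivity) (by positivity),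
      ← Real.mul_rpow (by positivity) (by positivity)]
    congr 1
    field_simp
  refine tsub_le_iff_right.2 (le_trans (measure_mono fun ω hω => ?_) (measure_union_le _ _))
  rcases le_or_gt (escC lam * ((t : ℝ) * Real.log t) ^ (1 / 3 : ℝ)) (maxDisp X t ω) with h2 | h2
  · exact Or.inl ⟨e ▸ h2, hω⟩
  · exact Or.inr h2

end Pool.Agent.Lib.MP_b41181_pr.XO
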