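import Pool.Agent.Lib.MP_b41181_pr.Escape

/-!
Two near maxima at which a second function differs force a defect of convexity.
-/

open MeasureTheory ProbabilityTheory Finset
open scoped ENNReal NNReal

namespace Pool.Agent.Lib.MP_b41181_pr.XO

/-- Defect of convexity of the expected maximum. -/
noncomputable def Df (n : ℕ) (p g : ℕ → ℝ) : ℝ :=
  F n (fun k => p k + g k) + F n (fun k => p k - g k) - 2 * F n p

lemma Df_neg (n : ℕ) (p g : ℕ → ℝ) : Df n p (-g) = Df n p g := by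
  unfold Df
  simp only [Pi.neg_apply, sub_neg_eq_add, ← sub_eq_add_neg]
  ring

lemma Df_nonneg (n : ℕ) (p g : ℕ → ℝ) : 0 ≤ Df n p g := by
  have := F_mid (n := n) (m := p) (p := fun k => p k + g k) (q := fun k => p k - g k)
    fun k _ => by linarith
  unfold Df
  linarith

/-- A near maximum over the first `c` steps at a point where `g` is large. -/
def LeftEv (p g : ℕ → ℝ) (c : ℕ) (G θ σ : ℝ) : Set (ℕ → ℝ) :=
  {u | ∃ j ≤ c, θ ≤ g j ∧ (∀ k ≤ c, p k + S k u ≤ p j + S j u + σ) ∧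
    G ≤ S j u - S c u ∧ S j u - S c u ≤ 5 * G}

/-- A near maximum over the steps after `c` at a point where `g` is large. -/
def RightEv (n : ℕ) (p g : ℕ → ℝ) (c : ℕ) (G θ σ : ℝ) : Set (ℕ → ℝ) :=
  {z | ∃ j, c + j ≤ n ∧ θ ≤ g (c + j) ∧
    (∀ k, c + k ≤ n → p (c + k) + S k z ≤ p (c + j) + S j z + σ) ∧ G ≤ S j z ∧ S j z ≤ 5 * G}

lemma pair {n c l : ℕ} {p g : ℕ → ℝ} {ρ G η θ1 θ2 : ℝ} (hl : 1 ≤ l) (hn : c + l ≤ n)
    (hp : ∀ k ≤ n, |p k| ≤ ρ) (hG : 4 * √l + 2 * ρ ≤ G) (hη : 0 ≤ η) (hηG : η ≤ G)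
    (hθ : 4 * η ≤ θ1 + θ2) :
    η * (η / (6 * √l) * Real.exp (-(6 * G) ^ 2 / (2 * l)) *
      mu.real (RightEv n p (-g) (c + l) G θ2 η) * mu.real (LeftEv p g c G θ1 η)) ≤ Df n p g := by
  have h1 := F_gap_aux (n := n) (m := p) (p := fun k => p k + g k) (q := fun k => p k - g k)
    (fun k _ => by linarith) (E := {z | 2 * Mx n (fun k => p k + S k z) + η ≤
      Mx n (fun k => p k + g k + S k z) + Mx n (fun k => p k - g k + S k z)}) hη fun z hz => hz
  have h2 := three_ge (c := c) (l := l) (A := LeftEv p g c G θ1 η)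
    (C := RightEv n p (-g) (c + l) G θ2 η) (E := {z | 2 * Mx n (fun k => p k + S k z) + η ≤
      Mx n (fun k => p k + g k + S k z) + Mx n (fun k => p k - g k + S k z)})
    (p := η / (6 * √l) * Real.exp (-(6 * G) ^ 2 / (2 * l))) (by positivity) (by
      rintro u ⟨j, hj, a1, a2, a3, a4⟩ z ⟨i, hi, b1, b2, b3, b4⟩
      have hs : 0 ≤ √(l : ℝ) := Real.sqrt_nonneg _
      have p1 := abs_le.1 (hp j (by omega))
      have p2 := abs_le.1 (hp (c + l + i) hi)
      have b1' : θ2 ≤ -g (c + l + i) := b1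
      refine (tube hl (v := p j + S j u - S c u - (p (c + l + i) + S i z)) (η := η) (b := 6 * G)
        hη (by linarith) (by linarith)).trans (measureReal_mono ?_)
      rintro y ⟨hy, hy'⟩
      have S1 : ∀ k ≤ c, S k (app c u (app l y z)) = S k u := fun k hk => S_app_le _ _ hk
      have S2 : ∀ j ≤ l, S (c + j) (app c u (app l y z)) = S c u + S j y :=
        fun j hj => by rw [S_app_add, S_app_le _ _ hj]
      have S3 : ∀ j, S (c + l + j) (app c u (app l y z)) = S c u + S l y + S j z :=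
        fun j => by rw [add_assoc c, S_app_add, S_app_add, add_assoc]
      have hy1 := hy.1
      have hy2 := hy.2
      have m1 := le_Mx (n := n) (k := j) (fun k => p k + g k + S k (app c u (app l y z)))
        (by omega)
      have m2 := le_Mx (n := n) (k := c + l + i)
        (fun k => p k - g k + S k (app c u (app l y z))) hi
      have m3 : Mx n (fun k => p k + S k (app c u (app l y z))) ≤
          S c u + S l y + (p (c + l + i) + S i z) + η := by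
        refine Mx_le fun k hk => ?_
        rcases le_total k c with h2 | h2
        · rw [S1 k h2]
          linarith [a2 k h2]
        obtain ⟨k, rfl⟩ := Nat.exists_eq_add_of_le h2
        rcases le_total k l with h3 | h3
        · rw [S2 k h3]
          have h4 := hy' k h3
          have h5 := (abs_le.1 (hp _ hk)).2
          rcases le_total 0 (S l y) with h7 | h7
          · rw [max_eq_right h7] at h4
            linarith
          · rw [max_eq_left h7] at h4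
            linarith
        · obtain ⟨k, rfl⟩ := Nat.exists_eq_add_of_le h3
          rw [← add_assoc] at hk ⊢
          rw [S3 k]
          linarith [b2 k hk]
      simp only [S1 j hj, S3 i] at m1 m2
      show 2 * Mx n (fun k => p k + S k (app c u (app l y z))) + η ≤ _
      linarith)
  unfold Df
  nlinarith [mul_le_mul_of_nonneg_left h2 hη]

/-- The constant in the pair estimate. -/
noncomputable def cP (R q : ℝ) : ℝ := q ^ 2 * Real.exp (-(72 * R ^ 2)) / 486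

lemma cP_pos (R : ℝ) {q : ℝ} (hq : 0 < q) : 0 < cP R q := by
  unfold cP
  positivity

lemma no_pair {n c l E : ℕ} {p g : ℕ → ℝ} {ρ R q η θ1 θ2 : ℝ} (hE : 1 ≤ E) (h1 : E ≤ l)
    (h2 : l ≤ 80 * E) (hn : c + l ≤ n) (hp : ∀ k ≤ n, |p k| ≤ ρ) (hρ : ρ ≤ √E) (hR : 24 ≤ R)
    (hq : 0 < q) (hη : 0 ≤ η) (hη' : η ≤ √E) (hθ : 4 * η ≤ θ1 + θ2)
    (hD : Df n p g < cP R q * (η ^ 2 * √E / n))
    (hA : q * (√E / (3 * √n)) ≤ mu.real (LeftEv p g c (2 * R * √E) θ1 η))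
    (hB : q * (√E / (3 * √n)) ≤ mu.real (RightEv n p (-g) (c + l) (2 * R * √E) θ2 η)) :
    False := by
  have hE0 : (0 : ℝ) < E := by exact_mod_cast hE
  have hl0 : (0 : ℝ) < l := by exact_mod_cast (by omega : 0 < l)
  have hn0 : (0 : ℝ) < n := by exact_mod_cast (by omega : 0 < n)
  have hs : 0 < √(E : ℝ) := Real.sqrt_pos.2 hE0
  have hsn : 0 < √(n : ℝ) := Real.sqrt_pos.2 hn0
  have hsl : 0 < √(l : ℝ) := Real.sqrt_pos.2 hl0
  have e1 : √(E : ℝ) ^ 2 = E := Real.sq_sqrt hE0.le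
  have h3 : √(l : ℝ) ≤ 9 * √E := by
    rw [Real.sqrt_le_left (by positivity), mul_pow, e1]
    have : (l : ℝ) ≤ 80 * E := by exact_mod_cast h2
    linarith
  have h4 := pair (g := g) (G := 2 * R * √E) (θ1 := θ1) (θ2 := θ2) (by omega) hn hp
    (by nlinarith) hη (by nlinarith) hθ
  have h5 : Real.exp (-(72 * R ^ 2)) ≤ Real.exp (-(6 * (2 * R * √E)) ^ 2 / (2 * l)) := by
    rw [Real.exp_le_exp, le_div_iff₀ (by positivity), mul_pow, mul_pow, e1]
    have : (E : ℝ) ≤ l := by exact_mod_cast h1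
    nlinarith [sq_nonneg R]
  have h6 : η / (6 * (9 * √E)) ≤ η / (6 * √l) :=
    div_le_div_of_nonneg_left hη (by positivity) (by linarith)
  have h7 : η * (η / (6 * (9 * √E)) * Real.exp (-(72 * R ^ 2)) * (q * (√E / (3 * √n))) *
      (q * (√E / (3 * √n)))) ≤ Df n p g := by
    refine le_trans ?_ h4
    gcongr
  have h8 : η * (η / (6 * (9 * √E)) * Real.exp (-(72 * R ^ 2)) * (q * (√E / (3 * √n))) *
      (q * (√E / (3 * √n)))) = cP R q * (η ^ 2 * √E / (√n * √n)) := by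
    unfold cP
    field_simp
    ring
  rw [h8, Real.mul_self_sqrt hn0.le] at h7
  linarith

/-- The maximum over a window is attained at a point where `g` is large. -/
def Win (p g : ℕ → ℝ) (a e : ℕ) (R θ : ℝ) : Set (ℕ → ℝ) :=
  {w | ∃ j ≤ 2 * e, θ ≤ g (a + j) ∧ (∀ k ≤ 2 * e, p (a + k) + S k w ≤ p (a + j) + S j w) ∧
    (2 * R * √e ≤ S j w ∧ S j w ≤ 5 * R * √e) ∧
    2 * R * √e ≤ S j w - S (2 * e) w ∧ S j w - S (2 * e) w ≤ 5 * R * √e}

lemma Win_mono {p g : ℕ → ℝ} {a e : ℕ} {R θ θ' : ℝ} (h : θ ≤ θ') :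
    mu.real (Win p g a e R θ') ≤ mu.real (Win p g a e R θ) :=
  measureReal_mono fun _ ⟨j, h1, h2, h3⟩ => ⟨j, h1, h.trans h2, h3⟩

lemma win_total {n a e : ℕ} {p : ℕ → ℝ} (g : ℕ → ℝ) {ρ R : ℝ} (θ : ℝ) (he : 1 ≤ e)
    (hn : a + 2 * e ≤ n) (hp : ∀ k ≤ n, |p k| ≤ ρ) (hρ : ρ ≤ √e) (hR : 24 ≤ R) :
    Real.exp (-(9 * R ^ 2)) ^ 2 ≤
      mu.real (Win p g a e R θ) + mu.real (Win p (-g) a e R (-θ)) := by
  have he0 : (0 : ℝ) < e := by exact_mod_cast he
  have hs : 0 < √(e : ℝ) := Real.sqrt_pos.2 he0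
  have h1 := step_prob (l := e) (R := R) hs (by linarith) le_rfl (by linarith)
  rw [sq]
  refine (mul_le_mul h1 h1 (Real.exp_pos _).le measureReal_nonneg).trans ((pk_prob e _ _).trans
    (le_trans (measureReal_mono ?_) (measureReal_union_le _ _)))
  rintro u ⟨x, ⟨hx1, hx2⟩, y, ⟨hy1, hy2⟩, hl, hr⟩
  obtain ⟨j, hj, hm⟩ := exists_Mx (2 * e) fun k => p (a + k) + S k u
  have hmax : ∀ k ≤ 2 * e, p (a + k) + S k u ≤ p (a + j) + S j u := fun k hk =>
    hm ▸ le_Mx (fun k => p (a + k) + S k u) hk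
  have e1 := hl 0 (Nat.zero_le _)
  rw [S_zero, Nat.sub_zero] at e1
  have e2 := hr (2 * e) (by omega)
  rw [show 2 * e - e = e by omega] at e2
  have e3 : S j u - S e u ≤ R * √e := by
    rcases le_total j e with h | h
    · rw [hl j h]
      exact hx2 _ (by omega)
    · rw [hr j h]
      exact hy2 _ (by omega)
  have e4 := hmax e (by omega)
  have p1 := abs_le.1 (hp (a + e) (by omega))
  have p2 := abs_le.1 (hp (a + j) (by omega))
  have e5 : 24 * √(e : ℝ) ≤ R * √e := by gcongr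
  have e6 : (2 * R * √e ≤ S j u ∧ S j u ≤ 5 * R * √e) ∧
      2 * R * √e ≤ S j u - S (2 * e) u ∧ S j u - S (2 * e) u ≤ 5 * R * √e :=
    ⟨⟨by linarith [hx1.2], by linarith [hx1.1]⟩, by linarith [hy1.2], by linarith [hy1.1]⟩
  rcases le_total θ (g (a + j)) with h | h
  · exact Or.inl ⟨j, hj, h, hmax, e6⟩
  · exact Or.inr ⟨j, hj, neg_le_neg h, hmax, e6⟩

lemma sqrt_between {E e : ℕ} (h1 : E ≤ e) (h2 : e ≤ 4 * E) :
    √(E : ℝ) ≤ √e ∧ √(e : ℝ) ≤ 2 * √E := by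
  refine ⟨Real.sqrt_le_sqrt (by exact_mod_cast h1), ?_⟩
  rw [Real.sqrt_le_left (by positivity), mul_pow, Real.sq_sqrt (by positivity)]
  have : (e : ℝ) ≤ 4 * E := by exact_mod_cast h2
  linarith

lemma left_of_win {n a e E : ℕ} {p g : ℕ → ℝ} {ρ R q θ σ : ℝ} (hE : 1 ≤ E) (h1 : E ≤ e)
    (h2 : e ≤ 4 * E) (hn : a + 2 * e ≤ n) (hp : ∀ k ≤ n, |p k| ≤ ρ) (hρ : ρ ≤ √E) (hR : 24 ≤ R)
    (hq : 0 < q) (hσ : 0 ≤ σ) (h : q ≤ mu.real (Win p g a e R θ)) :
    q * (√E / (3 * √n)) ≤ mu.real (LeftEv p g (a + 2 * e) (2 * R * √E) θ σ) := by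
  have hs : 0 ≤ √(E : ℝ) := Real.sqrt_nonneg _
  have h3 := stay_below (n := n) (by omega) hs
    (Real.sqrt_le_sqrt (by exact_mod_cast (by omega : E ≤ n)))
  obtain ⟨s1, s2⟩ := sqrt_between h1 h2
  have s3 : R * √E ≤ R * √e := by gcongr
  have s4 : R * √e ≤ R * (2 * √E) := by gcongr
  have s5 : 24 * √(E : ℝ) ≤ R * √E := by gcongr
  rw [mul_comm q]
  refine (mul_le_mul h3 h hq.le measureReal_nonneg).trans
    ((pk_prob a _ _).trans (measureReal_mono ?_))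
  rintro u ⟨x, hx, w, ⟨j, hj, a1, a2, ⟨a3, -⟩, a5, a6⟩, hl, hr⟩
  have e : ∀ k, S (a + k) u = S a u + S k w := fun k => by
    have := hr (a + k) (by omega)
    rw [Nat.add_sub_cancel_left] at this
    linarith
  refine ⟨a + j, by omega, a1, fun k hk => ?_, by rw [e, e]; linarith, by rw [e, e]; linarith⟩
  rw [e]
  rcases le_total k a with h4 | h4
  · have h5 := hl k h4
    have h6 := hx (a - k) (by omega)
    have p1 := abs_le.1 (hp k (by omega))
    have p2 := abs_le.1 (hp (a + j) (by omega))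
    linarith
  · obtain ⟨k, rfl⟩ := Nat.exists_eq_add_of_le h4
    rw [e]
    linarith [a2 k (by omega)]

lemma right_of_win {n a e E : ℕ} {p g : ℕ → ℝ} {ρ R q θ σ : ℝ} (hE : 1 ≤ E) (h1 : E ≤ e)
    (h2 : e ≤ 4 * E) (hn : a + 2 * e ≤ n) (hp : ∀ k ≤ n, |p k| ≤ ρ) (hρ : ρ ≤ √E) (hR : 24 ≤ R)
    (hσ : 0 ≤ σ) (h : q ≤ mu.real (Win p g a e R θ)) :
    q * (√E / (3 * √n)) ≤ mu.real (RightEv n p g a (2 * R * √E) θ σ) := by
  have hs : 0 ≤ √(E : ℝ) := Real.sqrt_nonneg _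
  have h3 := stay_below (n := n) (by omega) hs
    (Real.sqrt_le_sqrt (by exact_mod_cast (by omega : E ≤ n)))
  obtain ⟨s1, s2⟩ := sqrt_between h1 h2
  have s3 : R * √E ≤ R * √e := by gcongr
  have s4 : R * √e ≤ R * (2 * √E) := by gcongr
  have s5 : 24 * √(E : ℝ) ≤ R * √E := by gcongr
  refine (mul_le_mul h h3 (by positivity) measureReal_nonneg).trans (app_ge (d := 2 * e) ?_)
  rintro w ⟨j, hj, a1, a2, ⟨a3, a4⟩, a5, -⟩ x hx
  refine ⟨j, by omega, a1, fun k hk => ?_, by rw [S_app_le _ _ hj]; linarith,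
    by rw [S_app_le _ _ hj]; linarith⟩
  rw [S_app_le _ _ hj]
  rcases le_total k (2 * e) with h4 | h4
  · rw [S_app_le _ _ h4]
    linarith [a2 k h4]
  · rw [S_app_ge _ _ h4]
    have h6 := hx (k - 2 * e) (by omega)
    have p1 := abs_le.1 (hp (a + k) hk)
    have p2 := abs_le.1 (hp (a + j) (by omega))
    linarith

lemma win_or {n a e : ℕ} {p : ℕ → ℝ} (g : ℕ → ℝ) {ρ R q : ℝ} (θ : ℝ) (he : 1 ≤ e)
    (hn : a + 2 * e ≤ n) (hp : ∀ k ≤ n, |p k| ≤ ρ) (hρ : ρ ≤ √e) (hR : 24 ≤ R)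
    (hq : 2 * q ≤ Real.exp (-(9 * R ^ 2)) ^ 2) (h : ¬ q ≤ mu.real (Win p g a e R θ)) :
    q ≤ mu.real (Win p (-g) a e R (-θ)) := by
  have := win_total g θ he hn hp hρ hR
  linarith [not_le.1 h]

lemma step {n a b e e' l E : ℕ} {p g : ℕ → ℝ} {ρ R q η θ : ℝ} (hE : 1 ≤ E) (h1 : E ≤ e)
    (h2 : e ≤ 4 * E) (h1' : E ≤ e') (h2' : e' ≤ 4 * E) (l1 : E ≤ l) (l2 : l ≤ 80 * E)
    (ha : a + 2 * e ≤ n) (hb : b + 2 * e' ≤ n) (ho : a + 2 * e + l = b ∨ b + 2 * e' + l = a)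
    (hp : ∀ k ≤ n, |p k| ≤ ρ) (hρ : ρ ≤ √E) (hR : 24 ≤ R) (hq : 0 < q)
    (hq' : 2 * q ≤ Real.exp (-(9 * R ^ 2)) ^ 2) (hη : 0 ≤ η) (hη' : η ≤ √E)
    (hD : Df n p g < cP R q * (η ^ 2 * √E / n))
    (h : q ≤ mu.real (Win p g a e R (θ + 4 * η))) : q ≤ mu.real (Win p g b e' R θ) := by
  by_contra hc
  have h3 := win_or g θ (by omega) hb hp (hρ.trans (sqrt_between h1' h2').1) hR hq' hc
  rcases ho with ho | ho
  · refine no_pair (c := a + 2 * e) (θ1 := θ + 4 * η) (θ2 := -θ) hE l1 l2 (by omega) hp hρ hR hq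
      hη hη' (by linarith) hD (left_of_win hE h1 h2 ha hp hρ hR hq hη h) ?_
    rw [ho]
    exact right_of_win hE h1' h2' hb hp hρ hR hη h3
  · refine no_pair (g := -g) (c := b + 2 * e') (θ1 := -θ) (θ2 := θ + 4 * η) hE l1 l2 (by omega)
      hp hρ hR hq hη hη' (by linarith) (by rwa [Df_neg])
      (left_of_win hE h1' h2' hb hp hρ hR hq hη h3) ?_
    rw [ho, neg_neg]
    exact right_of_win hE h1 h2 ha hp hρ hR hη h

/-- All windows of one scale are connected. -/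
lemma conn {n : ℕ} {p g : ℕ → ℝ} {ρ R q : ℝ} (hp : ∀ k ≤ n, |p k| ≤ ρ) (hR : 24 ≤ R)
    (hq : 0 < q) (hq' : 2 * q ≤ Real.exp (-(9 * R ^ 2)) ^ 2) (m : ℕ) :
    ∀ (E : ℕ) (η θ : ℝ), 1 ≤ E → 20 * E ≤ n → n < 80 * (4 ^ m * E) → ρ ≤ √E → 0 ≤ η → η ≤ √E →
      Df n p g < cP R q * (η ^ 2 * √E / n) → ∀ a b, a + 2 * E ≤ n → b + 2 * E ≤ n →
      q ≤ mu.real (Win p g a E R (θ + 32 * η)) → q ≤ mu.real (Win p g b E R θ) := by
  have top : ∀ (E : ℕ) (η θ : ℝ), 1 ≤ E → 20 * E ≤ n → n < 80 * E → ρ ≤ √E → 0 ≤ η → η ≤ √E →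
      Df n p g < cP R q * (η ^ 2 * √E / n) → ∀ a b, a + 2 * E ≤ n → b + 2 * E ≤ n →
      q ≤ mu.real (Win p g a E R (θ + 32 * η)) → q ≤ mu.real (Win p g b E R θ) := by
    intro E η θ hE h1 h2 hρ hη hη' hD a b ha hb h
    have st : ∀ (a b : ℕ) (θ : ℝ), a + 2 * E ≤ n → b + 2 * E ≤ n →
        (a + 3 * E ≤ b ∨ b + 3 * E ≤ a) →
        q ≤ mu.real (Win p g a E R (θ + 4 * η)) → q ≤ mu.real (Win p g b E R θ) := by
      intro a b θ ha hb hab h
      rcases hab with hab | hab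
      · exact step (l := b - a - 2 * E) hE le_rfl (by omega) le_rfl (by omega) (by omega)
          (by omega) ha hb (by omega) hp hρ hR hq hq' hη hη' hD h
      · exact step (l := a - b - 2 * E) hE le_rfl (by omega) le_rfl (by omega) (by omega)
          (by omega) ha hb (by omega) hp hρ hR hq hq' hη hη' hD h
    by_cases h3 : a + 3 * E ≤ b ∨ b + 3 * E ≤ a
    · exact st a b θ ha hb h3 (h.trans (Win_mono (by linarith)))
    · obtain ⟨c, hc, c1, c2⟩ : ∃ c, c + 2 * E ≤ n ∧ (a + 3 * E ≤ c ∨ c + 3 * E ≤ a) ∧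
          (c + 3 * E ≤ b ∨ b + 3 * E ≤ c) := by
        by_cases h4 : 3 * E ≤ a ∧ 3 * E ≤ b
        · exact ⟨0, by omega, by omega, by omega⟩
        · exact ⟨n - 2 * E, by omega, by omega, by omega⟩
      exact st c b θ hc hb c2 (st a c _ ha hc c1 (h.trans (Win_mono (by linarith))))
  induction m with
  | zero =>
    intro E η θ hE h1 h2
    exact top E η θ hE h1 (by simpa using h2)
  | succ m ih =>
    intro E η θ hE h1 h2 hρ hη hη' hD a b ha hb h
    rcases lt_or_ge n (80 * E) with h3 | h3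
    · exact top E η θ hE h1 h3 hρ hη hη' hD a b ha hb h
    have hs : 0 ≤ √(E : ℝ) := Real.sqrt_nonneg _
    have e1 : √((4 * E : ℕ) : ℝ) = 2 * √E := by
      have := sqrt_four_pow 1 E
      simpa using this
    have nb : ∀ a, a + 2 * E ≤ n → ∃ a', a' + 2 * (4 * E) ≤ n ∧
        (a + 2 * E + E = a' ∨ a' + 2 * (4 * E) + E = a) := fun a ha => by
      by_cases h4 : a + 11 * E ≤ n
      · exact ⟨a + 3 * E, by omega, by omega⟩
      · exact ⟨a - 9 * E, by omega, by omega⟩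
    obtain ⟨a', a1, a2⟩ := nb a ha
    obtain ⟨b', b1, b2⟩ := nb b hb
    refine step (l := E) hE (by omega) le_rfl le_rfl (by omega) le_rfl (by omega) b1 hb b2.symm
      hp hρ hR hq hq' hη hη' hD ?_
    refine ih (4 * E) (3 / 4 * η) _ (by omega) (by omega)
      (by rw [← mul_assoc (4 ^ m), ← pow_succ]; exact h2) (by rw [e1]; linarith) (by linarith)
      (by rw [e1]; linarith) (hD.trans_le ?_) a' b' a1 b1 ?_
    · rw [e1]
      refine mul_le_mul_of_nonneg_left (div_le_div_of_nonneg_right ?_ (by positivity))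
        (cP_pos R hq).le
      nlinarith [mul_nonneg (sq_nonneg η) hs]
    · exact step (l := E) hE le_rfl (by omega) (by omega) le_rfl le_rfl (by omega) ha a1 a2
        hp hρ hR hq hq' hη hη' hD (h.trans (Win_mono (by linarith)))

end Pool.Agent.Lib.MP_b41181_pr.XO
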