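import Pool.Agent.Lib.MP_b41181_pr.XO.Vis

/-!
The sharp bootstrap for the discrete model.
-/

open MeasureTheory ProbabilityTheory Finset
open scoped ENNReal NNReal

namespace Pool.Agent.Lib.MP_b41181_pr.XO

/-- The constant of the sharp estimate. -/
noncomputable def cX : ℝ :=
  cP (8 * 48) (Real.exp (-(9 * (8 * 48) ^ 2)) ^ (2 * (21 + 1))) * (4 / 600 ^ 2)

lemma cX_pos : 0 < cX := mul_pos (cP_pos _ (by positivity)) (by norm_num)

/-- The resolution used at the level `ρ`. -/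
noncomputable def res (ρ : ℝ) : ℕ := ⌊(ρ / 259200) ^ 2⌋₊

lemma res_facts {ρ : ℝ} (hρ : 10 ^ 12 ≤ ρ ^ 2) (h0 : 0 ≤ ρ) :
    1 ≤ res ρ ∧ √(res ρ : ℝ) ≤ ρ / 259200 ∧ 16 * ρ ^ 2 ≤ ((4 ^ 21 * res ρ : ℕ) : ℝ) ∧
      ((4 ^ 21 * res ρ : ℕ) : ℝ) ≤ 66 * ρ ^ 2 := by
  have h1 : (res ρ : ℝ) ≤ (ρ / 259200) ^ 2 := Nat.floor_le (by positivity)
  have h2 : (ρ / 259200) ^ 2 < res ρ + 1 := Nat.lt_floor_add_one _
  have h3 := Real.sqrt_le_iff.2 ⟨by positivity, h1⟩
  rw [div_pow] at h1 h2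
  norm_num at h1 h2 hρ
  refine ⟨?_, h3, ?_, ?_⟩
  · have : (1 : ℝ) ≤ res ρ := by linarith
    exact_mod_cast this
  · push_cast
    linarith
  · push_cast
    linarith

/-- Deterministic core: small energy and small defect are impossible. -/
lemma core {n s : ℕ} {x y : ℕ → ℝ} {ρ L D : ℝ} (hL : 1 ≤ L) (h0 : 0 ≤ ρ)
    (hρ : 10 ^ 12 * L ≤ ρ ^ 2) (hn : 10 ^ 10 * L * ρ ^ 2 ≤ n) (hs : s ≤ n)
    (hx : ∀ k ≤ n, |S k x| ≤ ρ) (hy : ∀ k ≤ n, |S k y| ≤ ρ) (hxs : ρ / 4 ≤ S s x)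
    (hys : S s y ≤ 0) (l0 : Loc n (fun k => S k y) 48 0 (res ρ))
    (ls : Loc n (fun k => S k y) 48 s (res ρ))
    (hu : ∑ i ∈ range n, ((1 / 2 : ℝ) • (x - y)) i ^ 2 ≤ L) (hD : D * n ≤ cX * ρ ^ 3)
    (hD' : Df n (fun k => S k ((1 / 2 : ℝ) • (x + y))) (fun k => S k ((1 / 2 : ℝ) • (x - y))) +
      Df n (fun k => -S k ((1 / 2 : ℝ) • (x + y))) (fun k => -S k ((1 / 2 : ℝ) • (x - y))) < D) :
    False := by
  obtain ⟨r1, r2, r3, r4⟩ := res_facts (ρ := ρ) (by linarith) h0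
  obtain ⟨E, hE⟩ : ∃ E, E = 4 ^ 21 * res ρ := ⟨_, rfl⟩
  rw [← hE] at r3 r4
  have hρ2 : 10 ^ 12 ≤ ρ ^ 2 := by linarith
  have hρ0 : 0 < ρ := h0.lt_of_ne' fun h => by rw [h] at hρ2; norm_num at hρ2
  have hn1 : 10 ^ 10 * ρ ^ 2 ≤ n := le_trans (by nlinarith) hn
  have hn0 : (0 : ℝ) < n := by nlinarith
  have e1 : 4 * ρ ≤ √(E : ℝ) := Real.le_sqrt_of_sq_le (by linarith)
  have e2 : 20 * E ≤ n := by
    have : (20 * E : ℝ) ≤ n := by nlinarith
    exact_mod_cast this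
  set m := (1 / 2 : ℝ) • (x + y) with hm
  set u := (1 / 2 : ℝ) • (x - y) with hud
  have em : ∀ k, S k m = (S k x + S k y) / 2 := fun k => by rw [hm, S_smul, S_add]; ring
  have eu : ∀ k, S k u = (S k x - S k y) / 2 := fun k => by rw [hud, S_smul, S_sub]; ring
  have hp : ∀ k ≤ n, |S k m| ≤ ρ := fun k hk => by
    have a1 := abs_le.1 (hx k hk)
    have a2 := abs_le.1 (hy k hk)
    rw [em, abs_le]
    constructor <;> linarith
  have hD2 : D ≤ cP (8 * 48) (Real.exp (-(9 * (8 * 48) ^ 2)) ^ (2 * (21 + 1))) *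
      ((ρ / 600) ^ 2 * √E / n) := by
    rw [← mul_div_assoc, le_div_iff₀ hn0]
    refine hD.trans ?_
    unfold cX
    rw [mul_assoc]
    refine mul_le_mul_of_nonneg_left ?_ (cP_pos _ (by positivity)).le
    calc _ = (ρ / 600) ^ 2 * (4 * ρ) := by ring
      _ ≤ _ := by gcongr
  have n1 := Df_nonneg n (fun k => S k m) (fun k => S k u)
  have n2 := Df_nonneg n (fun k => -S k m) (fun k => -S k u)
  obtain ⟨s1, a1, a2, a3⟩ := vis (fun k => S k m) (by norm_num) hs ls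
  obtain ⟨s2, b1, b2, b3⟩ := vis (w := fun k => -S k y) (h := res ρ) (Rm := 48) (fun k => -S k m)
    (by norm_num) (Nat.zero_le n) fun k hk d i1 i2 i3 => by
      have := l0 k hk d i1 i2 i3
      rwa [← abs_neg, neg_sub, sub_eq_neg_add, ← sub_neg_eq_add] at this
  obtain ⟨b, hb, hg⟩ := good_win (n := n) (E := E) (M := ⌈2 * (E : ℝ) * L / (ρ / 600) ^ 2⌉₊)
    (u := u) (η := ρ / 600) (by positivity)
    (Nat.ceil_pos.2 (div_pos (by nlinarith) (by positivity))) hu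
    (by rw [← div_le_iff₀ (by positivity)]; exact Nat.le_ceil _) (by
      have c1 := Nat.ceil_lt_add_one (a := 2 * (E : ℝ) * L / (ρ / 600) ^ 2) (by positivity)
      have c2 : 2 * (E : ℝ) * L / (ρ / 600) ^ 2 ≤ 47520000 * L := by
        rw [div_le_iff₀ (by positivity)]
        nlinarith
      have c3 : (⌈2 * (E : ℝ) * L / (ρ / 600) ^ 2⌉₊ : ℝ) * (2 * E) ≤ n := by
        calc _ ≤ (47520001 * L) * (132 * ρ ^ 2) :=
              mul_le_mul (by linarith) (by linarith) (by positivity) (by positivity)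
          _ ≤ _ := le_trans (by nlinarith) hn
      exact_mod_cast c3)
  obtain ⟨i, hi, c1⟩ := propagate (g := fun k => S k u) (η := ρ / 600) r1 (by norm_num) hE
    (by norm_num) a2 a1 hp e1 e2 (by linarith) (by linarith) (by linarith) hb
  obtain ⟨j, hj, c2⟩ := propagate (g := fun k => -S k u) (η := ρ / 600) r1 (by norm_num) hE
    (by norm_num) b2 b1 (fun k hk => by rw [abs_neg]; exact hp k hk) e1 e2 (by linarith)
    (by linarith) (by linarith) hb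
  have c3 := (abs_le.1 (hg i hi j hj)).2
  simp only [em, S_zero] at a3 b3
  rw [eu s1] at c1
  rw [eu s2] at c2
  linarith

lemma dep_BadLoc {n p : ℕ} (hp : p ≤ n) (j0 κ : ℕ) (R : ℝ) {x y : ℕ → ℝ}
    (h : ∀ i < n, x i = y i) (hx : x ∈ BadLoc n p j0 κ R) : y ∈ BadLoc n p j0 κ R := by
  simp only [BadLoc, Set.mem_iUnion, Set.mem_ofPred_eq] at hx ⊢
  obtain ⟨i, hi, k, hk, h1, h2, h3⟩ := hx
  exact ⟨i, hi, k, hk, h1, h2, by rwa [← S_congr h hk, ← S_congr h hp]⟩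

lemma point {n s : ℕ} {β ρ L : ℝ} (hβ : 0 < β) (hL : 1 ≤ L) (h0 : 0 ≤ ρ)
    (hρ : 10 ^ 12 * L ≤ ρ ^ 2) (hn : 10 ^ 10 * L * ρ ^ 2 ≤ n) (hs : s ≤ n)
    (hg : L * n ≤ cX * β * ρ ^ 3)
    (hδ : (Gibbs (Vd n β)).real {x | ∃ k ≤ n, ρ < |S k x|} ≤ 1 / 8) :
    (Gibbs (Vd n β)).real {x | ρ / 4 ≤ S s x ∧ ∀ k ≤ n, |S k x| ≤ ρ} ≤ 4 * Real.exp (-L) := by
  have hV := isHam_Vd n hβ.le
  have := hV.isProb
  obtain ⟨r1, -, r3, -⟩ := res_facts (ρ := ρ) (by linarith) h0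
  set C := {x | ∃ k ≤ n, ρ < |S k x|} ∪
    (BadLoc n 0 (Nat.log 2 (res ρ) + 1) 21 6 ∪ BadLoc n s (Nat.log 2 (res ρ) + 1) 21 6) with hC
  have hCm : MeasurableSet C := (measurableSet_big n ρ).union
    ((measurableSet_BadLoc _ _ _ _ _).union (measurableSet_BadLoc _ _ _ _ _))
  have hCp : (Gibbs (Vd n β)).real C ≤ 1 / 4 := by
    have b1 := BadLoc_prob hV (Nat.zero_le n) (Nat.log 2 (res ρ) + 1) 21 (R := 6) (by norm_num)
    have b2 := BadLoc_prob hV hs (Nat.log 2 (res ρ) + 1) 21 (R := 6) (by norm_num)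
    have b3 := exp_neg_le_half_pow (t := 18) (k := 18) (by norm_num)
    rw [show -(6 : ℝ) ^ 2 / 2 = -18 by norm_num] at b1 b2
    refine (measureReal_union_le _ _).trans ((add_le_add hδ (measureReal_union_le _ _)).trans ?_)
    norm_num at b1 b2 b3 ⊢
    linarith
  have dC : ∀ x y : ℕ → ℝ, (∀ i < n, x i = y i) → x ∈ C → y ∈ C := by
    rintro x y h (⟨k, hk, hx⟩ | hx | hx)
    · exact Or.inl ⟨k, hk, by rwa [← S_congr h hk]⟩
    · exact Or.inr (Or.inl (dep_BadLoc (Nat.zero_le n) _ _ _ h hx))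
    · exact Or.inr (Or.inr (dep_BadLoc hs _ _ _ h hx))
  have hB : 1 / 4 ≤ (Gibbs (Vd n β)).real ({x | 0 ≤ S 0 x - S s x} \ C) := by
    have h2 := Gibbs_abs_le hV s 0 0
    have h3 : {x | 0 ≤ |S 0 x - S s x|} = Set.univ := by ext x; simp
    rw [h3, probReal_univ] at h2
    have h4 : (Gibbs (Vd n β)).real {x | 0 ≤ S 0 x - S s x} ≤
        (Gibbs (Vd n β)).real ({x | 0 ≤ S 0 x - S s x} \ C) + (Gibbs (Vd n β)).real C := by
      refine le_trans (measureReal_mono fun x hx => ?_) (measureReal_union_le _ _)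
      by_cases h : x ∈ C
      · exact Or.inr h
      · exact Or.inl ⟨hx, h⟩
    linarith
  have h1 := plq hV (A := {x | ρ / 4 ≤ S s x ∧ ∀ k ≤ n, |S k x| ≤ ρ})
    (B := {x | 0 ≤ S 0 x - S s x} \ C)
    ((measurableSet_le measurable_const (measurable_S s)).inter (measurableSet_small n ρ))
    ((measurableSet_incr s 0 0).diff hCm) MeasurableSet.empty
    (fun x y h => by
      simp only [Set.mem_ofPred_eq, S_congr h hs]
      exact and_congr_right fun _ => forall₂_congr fun k hk => by rw [S_congr h hk])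
    (fun x y h => and_congr (dep_incr hs (Nat.zero_le n) (0 ≤ ·) x y h)
      (not_congr ⟨dC x y h, dC y x fun i hi => (h i hi).symm⟩))
    (ε := Real.exp (-L / 2)) (Real.exp_pos _).le (by
      rintro x ⟨hx1, hx2⟩ y ⟨hy1, hy2⟩ -
      rw [← Real.exp_nat_mul, Real.exp_le_exp]
      have hconv := hV.conv x y
      have hE : ∑ i ∈ range n, (x i - y i) ^ 2 =
          4 * ∑ i ∈ range n, ((1 / 2 : ℝ) • (x - y)) i ^ 2 := by
        rw [mul_sum]
        refine sum_congr rfl fun i _ => ?_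
        simp only [Pi.smul_apply, Pi.sub_apply, smul_eq_mul]
        ring
      have hE0 : 0 ≤ ∑ i ∈ range n, ((1 / 2 : ℝ) • (x - y)) i ^ 2 :=
        sum_nonneg fun _ _ => sq_nonneg _
      rw [hE]
      by_contra hcon
      push_cast at hcon
      simp only [hC, Set.mem_union, not_or, Set.mem_ofPred_eq, not_exists, not_and, not_lt] at hy2
      obtain ⟨m1, m2, m3⟩ := hy2
      have hy1' : 0 ≤ S 0 y - S s y := hy1
      rw [S_zero] at hy1'
      have l0 := loc_of_not_bad (by norm_num) (Nat.zero_le n) m1 r3 r1 le_rfl m2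
      have ls := loc_of_not_bad (by norm_num) hs m1 r3 r1 le_rfl m3
      rw [show (8 : ℝ) * 6 = 48 by norm_num] at l0 ls
      refine core (D := L / β) hL h0 hρ hn hs hx2 m1 hx1 (by linarith) l0 ls (by linarith) ?_ ?_
      · rw [div_mul_eq_mul_div, div_le_iff₀ hβ]
        linarith
      · have e1 : (fun k => S k ((1 / 2 : ℝ) • (x + y)) + S k ((1 / 2 : ℝ) • (x - y))) =
            fun k => S k x := by
          funext k; rw [S_smul, S_smul, S_add, S_sub]; ring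
        have e2 : (fun k => S k ((1 / 2 : ℝ) • (x + y)) - S k ((1 / 2 : ℝ) • (x - y))) =
            fun k => S k y := by
          funext k; rw [S_smul, S_smul, S_add, S_sub]; ring
        have e3 : (fun k => -S k ((1 / 2 : ℝ) • (x + y)) + -S k ((1 / 2 : ℝ) • (x - y))) =
            fun k => -S k x := by
          funext k; rw [S_smul, S_smul, S_add, S_sub]; ring
        have e4 : (fun k => -S k ((1 / 2 : ℝ) • (x + y)) - -S k ((1 / 2 : ℝ) • (x - y))) =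
            fun k => -S k y := by
          funext k; rw [S_smul, S_smul, S_add, S_sub]; ring
        unfold Df
        rw [e1, e2, e3, e4, lt_div_iff₀ hβ]
        unfold Vd at hcon
        linarith)
  rw [measureReal_empty, add_zero, ← Real.exp_nat_mul,
    show ((2 : ℕ) : ℝ) * (-L / 2) = -L by push_cast; ring] at h1
  have h2 := mul_le_mul_of_nonneg_left hB (measureReal_nonneg (μ := Gibbs (Vd n β))
    (s := {x | ρ / 4 ≤ S s x ∧ ∀ k ≤ n, |S k x| ≤ ρ}))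
  linarith

lemma point_abs {n s : ℕ} {β ρ L : ℝ} (hβ : 0 < β) (hL : 1 ≤ L) (h0 : 0 ≤ ρ)
    (hρ : 10 ^ 12 * L ≤ ρ ^ 2) (hn : 10 ^ 10 * L * ρ ^ 2 ≤ n) (hs : s ≤ n)
    (hg : L * n ≤ cX * β * ρ ^ 3)
    (hδ : (Gibbs (Vd n β)).real {x | ∃ k ≤ n, ρ < |S k x|} ≤ 1 / 8) :
    (Gibbs (Vd n β)).real {x | ρ / 4 ≤ |S s x| ∧ ∀ k ≤ n, |S k x| ≤ ρ} ≤ 8 * Real.exp (-L) := by
  have hV := isHam_Vd n hβ.le
  have := hV.isProb
  have h1 := point hβ hL h0 hρ hn hs hg hδ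
  have h2 := Gibbs_neg hV (A := {x | ρ / 4 ≤ S s x ∧ ∀ k ≤ n, |S k x| ≤ ρ})
    ((measurableSet_le measurable_const (measurable_S s)).inter (measurableSet_small n ρ))
  refine le_trans (le_trans (measureReal_mono ?_) (measureReal_union_le _ _))
    ((add_le_add h1 (h2.le.trans h1)).trans (by linarith))
  rintro x ⟨hx1, hx2⟩
  rcases le_abs.1 hx1 with h | h
  · exact Or.inl ⟨h, hx2⟩
  · exact Or.inr ⟨by rwa [S_neg], fun k hk => by rw [S_neg, abs_neg]; exact hx2 k hk⟩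

lemma halve {n : ℕ} {β ρ L δ : ℝ} (hβ : 0 < β) (hL : 5 ≤ L) (h0 : 0 ≤ ρ)
    (hρ : 10 ^ 12 * L ≤ ρ ^ 2) (hn : 10 ^ 10 * L * ρ ^ 2 ≤ n) (hg : L * n ≤ cX * β * ρ ^ 3)
    (hδ : (Gibbs (Vd n β)).real {x | ∃ k ≤ n, ρ < |S k x|} ≤ δ) (hδ' : δ ≤ 1 / 8) :
    (Gibbs (Vd n β)).real {x | ∃ k ≤ n, ρ / 2 < |S k x|} ≤
      δ + (1600 * L * n / ρ ^ 2 + 1) * (16 * Real.exp (-L)) := by
  have hV := isHam_Vd n hβ.le
  have := hV.isProb
  have hL0 : 0 < L := by linarith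
  have hρ2 : 0 < ρ ^ 2 := by nlinarith
  obtain ⟨j, j1, j2⟩ := exists_nat_pow_near (x := ρ ^ 2 / (800 * L)) (y := 2)
    (by rw [le_div_iff₀ (by positivity)]; linarith) one_lt_two
  rw [le_div_iff₀ (by positivity)] at j1
  rw [div_lt_iff₀ (by positivity), pow_succ 2 j] at j2
  have hR : √(2 * L) ^ 2 = 2 * L := Real.sq_sqrt (by positivity)
  have hb : 5 * √(2 * L) * √(2 ^ j) ≤ ρ / 4 := by
    refine le_of_sq_le_sq ?_ (by positivity)
    rw [mul_pow, mul_pow, hR, Real.sq_sqrt (by positivity)]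
    linarith
  have hsub : {x | ∃ k ≤ n, ρ / 2 < |S k x|} ⊆ {x | ∃ k ≤ n, ρ < |S k x|} ∪
      ⋃ i ∈ range (n / 2 ^ j + 1),
      ({x | ρ / 4 ≤ |S (i * 2 ^ j) x| ∧ ∀ k ≤ n, |S k x| ≤ ρ} ∪
        {x | ∃ k ≤ n, k < i * 2 ^ j + 2 ^ j ∧ i * 2 ^ j < k + 2 ^ j ∧
          5 * √(2 * L) * √(2 ^ j) < |S k x - S (i * 2 ^ j) x|}) := by
    rintro x ⟨k, hk, hx⟩
    by_cases h9 : ∃ k ≤ n, ρ < |S k x|
    · exact Or.inl h9
    push Not at h9
    right
    simp only [Set.mem_iUnion, mem_range]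
    have h0 : 0 < 2 ^ j := by positivity
    have h1 : k / 2 ^ j ≤ n / 2 ^ j := Nat.div_le_div_right hk
    have h2 := Nat.div_mul_le_self k (2 ^ j)
    have h3 := Nat.lt_div_mul_add (a := k) h0
    refine ⟨k / 2 ^ j, by omega, ?_⟩
    by_cases h4 : ρ / 4 ≤ |S (k / 2 ^ j * 2 ^ j) x|
    · exact Or.inl ⟨h4, h9⟩
    · refine Or.inr ⟨k, hk, h3, by omega, ?_⟩
      have h5 := abs_add_le (S k x - S (k / 2 ^ j * 2 ^ j) x) (S (k / 2 ^ j * 2 ^ j) x)
      rw [sub_add_cancel] at h5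
      linarith
  refine (measureReal_mono hsub (measure_ne_top _ _)).trans ((measureReal_union_le _ _).trans
    (add_le_add hδ ((measureReal_biUnion_finset_le _ _).trans ?_)))
  refine (sum_le_sum (g := fun _ => 16 * Real.exp (-L)) fun i hi => ?_).trans ?_
  · have hi' : i * 2 ^ j ≤ n := by
      have h1 : i ≤ n / 2 ^ j := by have := mem_range.1 hi; omega
      exact (Nat.mul_le_mul_right _ h1).trans (Nat.div_mul_le_self _ _)
    have h1 := Gibbs_window hV hi' j (R := √(2 * L)) (Real.le_sqrt_of_sq_le (by linarith))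
    rw [hR, show -(2 * L) / 2 = -L by ring] at h1
    exact (measureReal_union_le _ _).trans ((add_le_add
      (point_abs hβ (by linarith) h0 hρ hn hi' hg (hδ.trans hδ')) h1).trans (by linarith))
  · rw [sum_const, card_range, nsmul_eq_mul]
    refine mul_le_mul_of_nonneg_right ?_ (by positivity)
    rw [Nat.cast_add, Nat.cast_one, add_le_add_iff_right]
    refine Nat.cast_div_le.trans ?_
    push_cast
    rw [div_le_div_iff₀ (by positivity) hρ2]
    have h1 : (0 : ℝ) ≤ n := by positivity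
    nlinarith [mul_le_mul_of_nonneg_left j2.le h1]

theorem sharp_upper {n : ℕ} {β ρ L : ℝ} (hβ : 0 < β) (hL : 5 ≤ L) (h0 : 0 ≤ ρ)
    (hρ : 10 ^ 12 * L ≤ ρ ^ 2) (hg : L * n ≤ cX * β * ρ ^ 3) (i : ℕ) :
    ∀ δ : ℝ, 10 ^ 10 * L * (2 ^ i * ρ) ^ 2 ≤ n →
      δ + i * ((1600 * L * n / ρ ^ 2 + 1) * (16 * Real.exp (-L))) ≤ 1 / 8 →
      (Gibbs (Vd n β)).real {x | ∃ k ≤ n, 2 ^ i * ρ < |S k x|} ≤ δ →
      (Gibbs (Vd n β)).real {x | ∃ k ≤ n, ρ < |S k x|} ≤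
        δ + i * ((1600 * L * n / ρ ^ 2 + 1) * (16 * Real.exp (-L))) := by
  have hL0 : 0 < L := by linarith
  have hρ2 : 0 < ρ ^ 2 := by nlinarith
  have he : 0 ≤ (1600 * L * n / ρ ^ 2 + 1) * (16 * Real.exp (-L)) := by positivity
  induction i with
  | zero => simp
  | succ i ih =>
    intro δ h1 h2 h3
    have hle : ρ ≤ 2 ^ (i + 1) * ρ := le_mul_of_one_le_left h0 (one_le_pow₀ (by norm_num))
    have hc := cX_pos
    push_cast at h2 ⊢
    have hi : 0 ≤ (i : ℝ) * ((1600 * L * n / ρ ^ 2 + 1) * (16 * Real.exp (-L))) := by positivity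
    have h4 := halve hβ hL (h0.trans hle) (hρ.trans (by gcongr)) h1 (hg.trans (by gcongr)) h3
      (by linarith)
    rw [show 2 ^ (i + 1) * ρ / 2 = 2 ^ i * ρ by ring] at h4
    have h5 : (1600 * L * n / (2 ^ (i + 1) * ρ) ^ 2 + 1) * (16 * Real.exp (-L)) ≤
        (1600 * L * n / ρ ^ 2 + 1) * (16 * Real.exp (-L)) := by gcongr
    refine (ih _ (le_trans ?_ h1) (by linarith) (h4.trans (add_le_add le_rfl h5))).trans
      (by linarith)
    gcongr
    · norm_num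
    · omega

end Pool.Agent.Lib.MP_b41181_pr.XO
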