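import Pool.Agent.Lib.MP_b41181_pr.XO.Pair

/-!
Visible points and the propagation of the value of the second function to every window.
-/

open MeasureTheory ProbabilityTheory Finset
open scoped ENNReal NNReal

namespace Pool.Agent.Lib.MP_b41181_pr.XO

/-- One-sided regularity of `p` at the point `s`. -/
def Vis (n : ℕ) (p : ℕ → ℝ) (Rm : ℝ) (s : ℕ) : Prop :=
  ∀ k ≤ n, ∀ d : ℕ, k ≤ s + d → s ≤ k + d → p k - p s ≤ Rm * √d

lemma side_le {n h K s k d : ℕ} {p x : ℕ → ℝ} {Rm ρ : ℝ} (hR : 1 ≤ Rm) (hv : Vis n p Rm s)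
    (hp : ∀ k ≤ n, |p k| ≤ ρ) (hs : s ≤ n) (hk : k ≤ n) (h1 : k ≤ s + d) (h2 : s ≤ k + d)
    (hd : d ≤ K) (hx : Side h K Rm ρ x) : p k + S d x ≤ p s + 9 * Rm * √h := by
  have h0 : 0 ≤ Rm * √h := by positivity
  rcases le_total d h with h3 | h3
  · have h4 := hv k hk h (by omega) (by omega)
    linarith [hx.1 d h3]
  · rcases hx.2 d h3 hd with h4 | h4
    · linarith [hv k hk d h1 h2]
    · linarith [abs_le.1 (hp k hk), abs_le.1 (hp s hs)]

lemma pt_left {n h κ s : ℕ} {p : ℕ → ℝ} (g : ℕ → ℝ) {Rm ρ σ : ℝ} (hh : 1 ≤ h) (hR : 1 ≤ Rm)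
    (hv : Vis n p Rm s) (hp : ∀ k ≤ n, |p k| ≤ ρ) (hρ : 4 * ρ ≤ √((4 ^ κ * h : ℕ) : ℝ))
    (hn : s + 4 ^ κ * h ≤ n) (hσ : 9 * Rm * √h ≤ σ) :
    Real.exp (-(9 * (8 * Rm) ^ 2)) ^ (2 * (κ + 1)) * (√((4 ^ κ * h : ℕ) : ℝ) / (3 * √n)) ≤
      mu.real (LeftEv p g (s + 4 ^ κ * h) (2 * (8 * Rm) * √((4 ^ κ * h : ℕ) : ℝ)) (g s) σ) := by
  have hle : h ≤ 4 ^ κ * h := Nat.le_mul_of_pos_left _ (by positivity)
  have d1 := desc_prob hh (R := 8 * Rm) (by linarith) κ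
  have d2 := stay_prob (n := n) hh (by omega) (R := 8 * Rm) (y := √((4 ^ κ * h : ℕ) : ℝ))
    (by linarith) (Real.sqrt_nonneg _)
    (Real.sqrt_le_sqrt (by exact_mod_cast (by omega : 4 ^ κ * h ≤ n))) κ
  refine le_trans (le_of_eq ?_) ((mul_le_mul d2 d1 (by positivity) measureReal_nonneg).trans
    ((pk_prob s _ _).trans (measureReal_mono ?_)))
  · ring
  rintro u ⟨x, hx, y, hy, hl, hr⟩
  have hx' := side_of_stay (ρ := ρ) hR (by rwa [← sqrt_four_pow]) (sqrt_four_pow κ h).le hx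
  have hy' := side_of_desc (ρ := ρ) hR hy
  have e1 := hr (s + 4 ^ κ * h) (by omega)
  rw [Nat.add_sub_cancel_left] at e1
  have e2 := hy.2.2
  rw [← sqrt_four_pow] at e2
  have e3 : 0 ≤ Rm * √((4 ^ κ * h : ℕ) : ℝ) := by positivity
  refine ⟨s, by omega, le_rfl, fun k hk => ?_, by linarith [e2.2], by linarith [e2.1]⟩
  rcases le_total k s with h1 | h1
  · have := side_le (k := k) (d := s - k) hR hv hp (by omega) (by omega) (by omega) (by omega)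
      (by omega) hx'
    linarith [hl k h1]
  · have := side_le (k := k) (d := k - s) hR hv hp (by omega) (by omega) (by omega) (by omega)
      (by omega) hy'
    linarith [hr k h1]

lemma pt_right {n h κ c : ℕ} {p : ℕ → ℝ} (g : ℕ → ℝ) {Rm ρ σ : ℝ} (hh : 1 ≤ h) (hR : 1 ≤ Rm)
    (hv : Vis n p Rm (c + 4 ^ κ * h)) (hp : ∀ k ≤ n, |p k| ≤ ρ)
    (hρ : 4 * ρ ≤ √((4 ^ κ * h : ℕ) : ℝ)) (hn : c + 4 ^ κ * h ≤ n) (hσ : 9 * Rm * √h ≤ σ) :
    Real.exp (-(9 * (8 * Rm) ^ 2)) ^ (2 * (κ + 1)) * (√((4 ^ κ * h : ℕ) : ℝ) / (3 * √n)) ≤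
      mu.real (RightEv n p g c (2 * (8 * Rm) * √((4 ^ κ * h : ℕ) : ℝ))
        (g (c + 4 ^ κ * h)) σ) := by
  have hle : h ≤ 4 ^ κ * h := Nat.le_mul_of_pos_left _ (by positivity)
  have d1 := desc_prob hh (R := 8 * Rm) (by linarith) κ
  have d2 := stay_prob (n := n) hh (by omega) (R := 8 * Rm) (y := √((4 ^ κ * h : ℕ) : ℝ))
    (by linarith) (Real.sqrt_nonneg _)
    (Real.sqrt_le_sqrt (by exact_mod_cast (by omega : 4 ^ κ * h ≤ n))) κ
  refine le_trans (le_of_eq ?_) ((mul_le_mul d1 d2 (by positivity) measureReal_nonneg).trans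
    ((pk_prob (4 ^ κ * h) _ _).trans (measureReal_mono ?_)))
  · ring
  rintro u ⟨x, hx, y, hy, hl, hr⟩
  have hy' := side_of_stay (ρ := ρ) hR (by rwa [← sqrt_four_pow]) (sqrt_four_pow κ h).le hy
  have hx' := side_of_desc (ρ := ρ) hR hx
  have e1 := hl 0 (by omega)
  rw [Nat.sub_zero, S_zero] at e1
  have e2 := hx.2.2
  rw [← sqrt_four_pow] at e2
  have e3 : 0 ≤ Rm * √((4 ^ κ * h : ℕ) : ℝ) := by positivity
  refine ⟨4 ^ κ * h, hn, le_rfl, fun k hk => ?_, by linarith [e2.2], by linarith [e2.1]⟩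
  rcases le_total k (4 ^ κ * h) with h1 | h1
  · have := side_le (k := c + k) (d := 4 ^ κ * h - k) hR hv hp hn hk (by omega) (by omega)
      (by omega) hx'
    linarith [hl k h1]
  · have := side_le (k := c + k) (d := k - 4 ^ κ * h) hR hv hp hn hk (by omega) (by omega)
      (by omega) hy'
    linarith [hr k h1]

lemma two_q_le {c : ℝ} (h0 : 0 ≤ c) (h1 : c ≤ 1 / 2) {κ : ℕ} (hκ : 1 ≤ κ) :
    2 * c ^ (2 * (κ + 1)) ≤ c ^ 2 := by
  have h2 : c ^ (2 * (κ + 1)) ≤ c ^ 3 := pow_le_pow_of_le_one h0 (by linarith) (by omega)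
  nlinarith [sq_nonneg c]

/-- The value of `g` at a visible point is nearly reached in every window. -/
lemma propagate {n h κ s E : ℕ} {p g : ℕ → ℝ} {Rm ρ η : ℝ} (hh : 1 ≤ h) (hκ : 1 ≤ κ)
    (hE : E = 4 ^ κ * h) (hR : 3 ≤ Rm) (hv : Vis n p Rm s) (hs : s ≤ n)
    (hp : ∀ k ≤ n, |p k| ≤ ρ) (hρ : 4 * ρ ≤ √E) (hn : 20 * E ≤ n) (hη : 9 * Rm * √h ≤ η)
    (hη' : η ≤ √E)
    (hD : Df n p g < cP (8 * Rm) (Real.exp (-(9 * (8 * Rm) ^ 2)) ^ (2 * (κ + 1))) *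
      (η ^ 2 * √E / n)) {b : ℕ} (hb : b + 2 * E ≤ n) : ∃ j ≤ 2 * E, g s - 36 * η ≤ g (b + j) := by
  set q := Real.exp (-(9 * (8 * Rm) ^ 2)) ^ (2 * (κ + 1)) with hqd
  have hq : 0 < q := by positivity
  have hq' : 2 * q ≤ Real.exp (-(9 * (8 * Rm) ^ 2)) ^ 2 := by
    refine two_q_le (Real.exp_pos _).le ?_ hκ
    have := exp_neg_le_half_pow (t := 9 * (8 * Rm) ^ 2) (k := 1) (by push_cast; nlinarith)
    simpa using this
  have hE1 : 1 ≤ E := hE ▸ hh.trans (Nat.le_mul_of_pos_left _ (by positivity))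
  have hs0 : 0 ≤ √(E : ℝ) := Real.sqrt_nonneg _
  have hρ0 : 0 ≤ ρ := (abs_nonneg _).trans (hp 0 (Nat.zero_le _))
  have hρ' : ρ ≤ √E := by linarith
  have hη0 : 0 ≤ η := le_trans (by positivity) hη
  have hR' : 24 ≤ 8 * Rm := by linarith
  obtain ⟨a, ha, h1⟩ : ∃ a, a + 2 * E ≤ n ∧ q ≤ mu.real (Win p g a E (8 * Rm) (g s - 4 * η)) := by
    by_cases h2 : s + 4 * E ≤ n
    · refine ⟨s + E + E, by omega, ?_⟩
      by_contra hc
      have h3 := win_or g _ hE1 (by omega) hp hρ' hR' hq' hc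
      refine no_pair (c := s + E) (θ1 := g s) (θ2 := -(g s - 4 * η)) hE1 le_rfl (by omega)
        (by omega) hp hρ' hR' hq hη0 hη' (by linarith) hD ?_
        (right_of_win hE1 le_rfl (by omega) (by omega) hp hρ' hR' hη0 h3)
      subst hE
      exact pt_left g hh (by linarith) hv hp hρ (by omega) hη
    · obtain ⟨a, rfl⟩ : ∃ a, s = a + 2 * E + E + E := ⟨s - 4 * E, by omega⟩
      refine ⟨a, by omega, ?_⟩
      by_contra hc
      have h3 := win_or g _ hE1 (by omega) hp hρ' hR' hq' hc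
      refine no_pair (g := -g) (c := a + 2 * E) (θ2 := g (a + 2 * E + E + E)) hE1 le_rfl
        (by omega) (by omega) hp hρ' hR' hq hη0 hη' (by linarith) (by rwa [Df_neg])
        (left_of_win hE1 le_rfl (by omega) (by omega) hp hρ' hR' hq hη0 h3) ?_
      rw [neg_neg]
      subst hE
      exact pt_right g hh (by linarith) hv hp hρ hs hη
  have h2 := conn hp hR' hq hq' n E η (g s - 36 * η) hE1 hn (by
    have h3 : n < 4 ^ n := Nat.lt_pow_self (by norm_num)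
    have h4 : 4 ^ n ≤ 4 ^ n * E := Nat.le_mul_of_pos_right _ hE1
    omega) hρ' hη0 hη' hD a b ha hb (h1.trans (Win_mono (by linarith)))
  obtain ⟨w, j, hj, h3, -⟩ := nonempty_of_measureReal_ne_zero (hq.trans_le h2).ne'
  exact ⟨j, hj, h3⟩

lemma sqrt_add_le' (a b : ℕ) : √((a + b : ℕ) : ℝ) ≤ √a + √b := by
  rw [Real.sqrt_le_left (by positivity), add_sq, Real.sq_sqrt (by positivity),
    Real.sq_sqrt (by positivity)]
  push_cast
  have : 0 ≤ 2 * √(a : ℝ) * √b := by positivity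
  linarith

/-- Near a regular point of `w` there is a visible point of `p`. -/
lemma vis {n h s : ℕ} (p : ℕ → ℝ) {w : ℕ → ℝ} {Rm : ℝ} (hR : 0 ≤ Rm) (hs : s ≤ n)
    (hw : Loc n w Rm s h) :
    ∃ s' ≤ n, Vis n p Rm s' ∧ p s - w s - Rm * √h ≤ p s' - w s' := by
  obtain ⟨s', hs', hm⟩ := exists_Mx n fun k => p k - Rm * √((k - s + (s - k) : ℕ) : ℝ)
  have hmax : ∀ k ≤ n, p k - Rm * √((k - s + (s - k) : ℕ) : ℝ) ≤
      p s' - Rm * √((s' - s + (s - s') : ℕ) : ℝ) := fun k hk =>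
    hm ▸ le_Mx (fun k => p k - Rm * √((k - s + (s - k) : ℕ) : ℝ)) hk
  refine ⟨s', hs', fun k hk d h1 h2 => ?_, ?_⟩
  · have h3 : √((k - s + (s - k) : ℕ) : ℝ) ≤ √((s' - s + (s - s') : ℕ) : ℝ) + √d :=
      le_trans (Real.sqrt_le_sqrt (by exact_mod_cast (by omega))) (sqrt_add_le' _ d)
    have h4 := mul_le_mul_of_nonneg_left h3 hR
    linarith [hmax k hk]
  · have h1 := hmax s hs
    simp only [Nat.sub_self, add_zero, Nat.cast_zero, Real.sqrt_zero, mul_zero, sub_zero] at h1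
    have h2 := (abs_le.1 (hw s' hs' (s' - s + (s - s') + h) (by omega) (by omega) (by omega))).2
    have h3 := mul_le_mul_of_nonneg_left (sqrt_add_le' (s' - s + (s - s')) h) hR
    linarith

/-- A window on which the path has small oscillation. -/
lemma good_win {n E M : ℕ} {u : ℕ → ℝ} {η L : ℝ} (hη : 0 ≤ η) (hM0 : 0 < M)
    (hu : ∑ i ∈ range n, u i ^ 2 ≤ L) (hM : 2 * (E : ℝ) * L ≤ M * η ^ 2) (hn : M * (2 * E) ≤ n) :
    ∃ b, b + 2 * E ≤ n ∧ ∀ i ≤ 2 * E, ∀ j ≤ 2 * E, |S (b + i) u - S (b + j) u| ≤ η := by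
  have hM' : (0 : ℝ) < M := by exact_mod_cast hM0
  obtain ⟨i, hi, he⟩ := exists_le_of_sum_le (s := range M)
    (f := fun i => ∑ j ∈ Ico (0 + i * (2 * E)) (0 + (i + 1) * (2 * E)), u j ^ 2)
    (g := fun _ => L / (M : ℝ)) ⟨0, mem_range.2 hM0⟩ (by
      rw [sum_blocks, sum_const, card_range, nsmul_eq_mul, mul_div_cancel₀ _ hM'.ne']
      refine le_trans (sum_le_sum_of_subset_of_nonneg ?_ fun _ _ _ => sq_nonneg _) hu
      intro j hj
      have := (mem_Ico.1 hj).2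
      exact mem_range.2 (by omega))
  have hi' : (i + 1) * (2 * E) ≤ M * (2 * E) := Nat.mul_le_mul_right _ (mem_range.1 hi)
  rw [add_mul, one_mul] at hi' he
  refine ⟨i * (2 * E), by omega, fun k hk j hj => ?_⟩
  refine abs_S_sub_le u (d := 2 * E) (by omega) (by omega) (by omega) (by omega) (by omega)
    (by omega) hη he ?_
  push_cast
  rw [← mul_div_assoc, div_le_iff₀ hM']
  linarith

end Pool.Agent.Lib.MP_b41181_pr.XO
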